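import Pool.Agent.Helper71.RI.Defs

/-!
# Simultaneous plays defined by recursion on rounds
-/

set_option autoImplicit false

namespace Pool.Agent.RI

section run

variable {ι : Type} (step : (ι → List Cf) → ι → Cf × Cf)

/-- the histories after `r` rounds -/
def runH : ℕ → ι → List Cf
  | 0, _ => []
  | r + 1, j => runH r j ++ [(step (runH r) j).1, (step (runH r) j).2]

/-- the plays -/
def runX (j : ι) (k : ℕ) : Cf := ((runH step (k + 1) j)[k]?).getD default

theorem runH_length (r : ℕ) (j : ι) : (runH step r j).length = 2 * r := by
  induction r with
  | zero => rfl
  | succ r ih =>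
    show (runH step r j ++ [(step (runH step r) j).1, (step (runH step r) j).2]).length = _
    rw [List.length_append, ih]
    simp
    ring

theorem runH_stable {r r' : ℕ} (h : r ≤ r') (j : ι) {k : ℕ} (hk : k < 2 * r) :
    (runH step r' j)[k]? = (runH step r j)[k]? := by
  induction r', h using Nat.le_induction with
  | base => rfl
  | succ r' hr ih =>
    have e : runH step (r' + 1) j
        = runH step r' j ++ [(step (runH step r') j).1, (step (runH step r') j).2] := rfl
    rw [e, List.getElem?_append_left (by rw [runH_length]; omega), ih]

theorem runH_getElem {r : ℕ} (j : ι) {k : ℕ} (hk : k < 2 * r) :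
    (runH step r j)[k]? = some (runX step j k) := by
  have h1 : (runH step r j)[k]? = (runH step (k + 1) j)[k]? := by
    rcases le_total r (k + 1) with h | h
    · exact (runH_stable step h j hk).symm
    · exact runH_stable step h j (by omega)
  rw [h1]
  have h2 : k < (runH step (k + 1) j).length := by
    rw [runH_length]
    omega
  unfold runX
  rw [List.getElem?_eq_getElem h2]
  rfl

theorem runH_eq (r : ℕ) (j : ι) : runH step r j = (List.range (2 * r)).map (runX step j) := by
  apply List.ext_getElem?
  intro k
  by_cases hk : k < 2 * r
  · rw [runH_getElem step j hk, List.getElem?_map, List.getElem?_range hk]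
    rfl
  · rw [List.getElem?_eq_none (by rw [runH_length]; omega),
      List.getElem?_eq_none (by simp; omega)]

theorem runX_even (j : ι) (r : ℕ) : runX step j (2 * r) = (step (runH step r) j).1 := by
  have h := runH_getElem step (r := r + 1) j (k := 2 * r) (by omega)
  have e : runH step (r + 1) j
      = runH step r j ++ [(step (runH step r) j).1, (step (runH step r) j).2] := rfl
  rw [e, List.getElem?_append_right (by rw [runH_length]), runH_length, Nat.sub_self] at h
  exact (Option.some.inj h).symm

theorem runX_odd (j : ι) (r : ℕ) : runX step j (2 * r + 1) = (step (runH step r) j).2 := by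
  have h := runH_getElem step (r := r + 1) j (k := 2 * r + 1) (by omega)
  have e : runH step (r + 1) j
      = runH step r j ++ [(step (runH step r) j).1, (step (runH step r) j).2] := rfl
  rw [e, List.getElem?_append_right (by rw [runH_length]; omega), runH_length,
    Nat.add_sub_cancel_left] at h
  exact (Option.some.inj h).symm

end run

end Pool.Agent.RI
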